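import Mathlib

/-!
# Negative index of the intersection form on surfaces of a ruled fourfold: linear algebra
-/

set_option autoImplicit false

namespace Pool.Agent.Lib.MP_361a6f_ag.H21

open Module

/-- A negative semidefinite form: isotropic vectors are in the radical. -/
lemma semidef_radical {V : Type*} [AddCommGroup V] [Module ℚ V] (B : V →ₗ[ℚ] V →ₗ[ℚ] ℚ)
    (hs : ∀ x y, B x y = B y x) (f : V →ₗ[ℚ] ℚ) (hneg : ∀ x, f x = 0 → B x x ≤ 0)
    {x : V} (hx : f x = 0) (hxx : B x x = 0) (y : V) (hy : f y = 0) : B x y = 0 := by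
  by_contra h
  have key : ∀ t : ℚ, 2 * t * B x y + B y y ≤ 0 := by
    intro t
    have h1 := hneg (t • x + y) (by simp [hx, hy])
    simp only [map_add, map_smul, LinearMap.add_apply, LinearMap.smul_apply, smul_eq_mul, hxx,
      hs y x] at h1
    linarith
  have h2 := key ((1 - B y y) / (2 * B x y))
  have h3 : 2 * ((1 - B y y) / (2 * B x y)) * B x y = 1 - B y y := by
    field_simp
  rw [h3] at h2
  linarith

/-- In a Lorentzian space the orthogonal complement of a positive vector is negative definite. -/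
lemma lorentz {V : Type*} [AddCommGroup V] [Module ℚ V] (G : V →ₗ[ℚ] V →ₗ[ℚ] ℚ)
    (hs : ∀ x y, G x y = G y x) (a : V) (ha : 0 < G a a)
    (hneg : ∀ x, G a x = 0 → x ≠ 0 → G x x < 0) {z b : V} (hz : 0 < G z z) (hzb : G z b = 0)
    (hb : b ≠ 0) : G b b < 0 := by
  have hle : ∀ x, G a x = 0 → G x x ≤ 0 := by
    intro x hx
    by_cases h : x = 0
    · subst h; simp
    · exact (hneg x hx h).le
  by_cases hab : G a b = 0
  · exact hneg b hab hb
  have haz : G a z ≠ 0 := fun h => absurd hz (not_lt.2 (hle z h))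
  set t := G a b / G a z with ht
  have ht0 : t ≠ 0 := div_ne_zero hab haz
  have h1 : G a (b - t • z) = 0 := by
    rw [map_sub, map_smul, smul_eq_mul, ht]
    field_simp
    ring
  have h2 := hle _ h1
  simp only [map_sub, map_smul, LinearMap.sub_apply, LinearMap.smul_apply, smul_eq_mul,
    hs b z, hzb] at h2
  have h3 : 0 < t * t * G z z := mul_pos (mul_self_pos.2 ht0) hz
  nlinarith

/-- The data of linear algebra attached to a fourfold dominated by a ruled fourfold. -/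
structure Data (V₁ V₂ F₁ F₂ : Type*) [AddCommGroup V₁] [Module ℚ V₁] [AddCommGroup V₂]
    [Module ℚ V₂] [AddCommGroup F₁] [Module ℚ F₁] [AddCommGroup F₂] [Module ℚ F₂]
    (r : ℕ) (C : Fin r → Type*) [∀ i, AddCommGroup (C i)] [∀ i, Module ℚ (C i)] where
  B : V₂ →ₗ[ℚ] V₂ →ₗ[ℚ] ℚ
  symm : ∀ x y, B x y = B y x
  L : V₁ →ₗ[ℚ] V₂
  M : V₁ →ₗ[ℚ] V₂
  e : V₁
  f : V₁ →ₗ[ℚ] ℚ
  f_eq : ∀ b, B (L e) (L b) = f b
  f_pos : 0 < f e
  LM : ∀ b b', B (L b) (M b') = B (L b') (M b)
  neg : ∀ b, f b = 0 → B (L b) (L b) ≤ 0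
  exc : ∀ b, b ≠ 0 → (∀ y, B (L b) y = 0) → B (M b) (M b) < 0
  p₂ : F₂ →ₗ[ℚ] V₂
  p₁ : F₁ →ₗ[ℚ] V₁
  E : ∀ i, C i →ₗ[ℚ] V₂
  S : ∀ i, C i →ₗ[ℚ] C i →ₗ[ℚ] ℚ
  η : ∀ i, C i
  S_pos : ∀ i, 0 < S i (η i) (η i)
  S_neg : ∀ i c, S i c (η i) = 0 → c ≠ 0 → S i c c < 0
  pp : ∀ a a', B (p₂ a) (p₂ a') = 0
  pE : ∀ a i c, B (p₂ a) (E i c) = 0
  EE : ∀ i c c', B (E i c) (E i c') = - S i c c'
  EE' : ∀ i j c c', i ≠ j → B (E i c) (E j c') = 0
  gen : ∀ z, ∃ (a : F₂) (b : F₁) (c : ∀ i, C i), z = p₂ a + L (p₁ b) + ∑ i, E i (c i)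
  δ : Fin r → V₁
  pic : ∀ (b : F₁) (s : ℚ) (t : Fin r → ℚ), p₁ b + s • e + ∑ i, t i • δ i = 0 →
    b = 0 ∧ s = 0 ∧ t = 0
  num : ∀ a, (∀ b, B (L (p₁ b)) (p₂ a) = 0) → ∀ y, B (p₂ a) y = 0

variable {V₁ V₂ F₁ F₂ : Type*} [AddCommGroup V₁] [Module ℚ V₁] [AddCommGroup V₂] [Module ℚ V₂]
  [AddCommGroup F₁] [Module ℚ F₁] [AddCommGroup F₂] [Module ℚ F₂]
  {r : ℕ} {C : Fin r → Type*} [∀ i, AddCommGroup (C i)] [∀ i, Module ℚ (C i)]

namespace Data

variable (D : Data V₁ V₂ F₁ F₂ r C)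

/-- `LL` is a symmetric form whose isotropic vectors in `ker f` are in the radical. -/
lemma rad {b : V₁} (hb : D.f b = 0) (hbb : D.B (D.L b) (D.L b) = 0) (y : V₁) :
    D.B (D.L b) (D.L y) = 0 := by
  have h1 : D.f (y - (D.f y / D.f D.e) • D.e) = 0 := by
    have := D.f_pos.ne'
    rw [map_sub, map_smul, smul_eq_mul]
    field_simp
    ring
  have h2 := semidef_radical (D.B.compl₁₂ D.L D.L) (fun x y => by
    simp only [LinearMap.compl₁₂_apply]; exact D.symm _ _) D.f
    (fun x hx => by simp only [LinearMap.compl₁₂_apply]; exact D.neg x hx) hb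
    (by simpa only [LinearMap.compl₁₂_apply] using hbb) _ h1
  simp only [LinearMap.compl₁₂_apply, map_sub, map_smul, smul_eq_mul] at h2
  rw [D.symm (D.L b) (D.L D.e), D.f_eq, hb, mul_zero, sub_zero] at h2
  exact h2

/-- the sum of the pieces -/
noncomputable def Θ : (F₂ × F₁ × (∀ i, C i)) →ₗ[ℚ] V₂ where
  toFun g := D.p₂ g.1 + D.L (D.p₁ g.2.1) + ∑ i, D.E i (g.2.2 i)
  map_add' g g' := by
    simp only [Prod.fst_add, Prod.snd_add, map_add, Pi.add_apply, Finset.sum_add_distrib]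
    abel
  map_smul' c g := by
    simp only [Prod.smul_fst, Prod.smul_snd, map_smul, Pi.smul_apply, RingHom.id_apply,
      Finset.smul_sum, smul_add]

/-- the equations of the semidefinite part -/
noncomputable def ψ : (F₂ × F₁ × (∀ i, C i)) →ₗ[ℚ] F₁ × (Fin r → ℚ) where
  toFun g := (g.2.1, fun i => D.S i (g.2.2 i) (D.η i))
  map_add' g g' := by
    ext <;> simp
  map_smul' c g := by
    ext <;> simp

lemma S_nonpos (i : Fin r) (c : C i) (h : D.S i c (D.η i) = 0) : D.S i c c ≤ 0 := by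
  by_cases hc : c = 0
  · subst hc; simp
  · exact (D.S_neg i c h hc).le

/-- the square of an element of the semidefinite part -/
lemma sq (a : F₂) (c : ∀ i, C i) :
    D.B (D.p₂ a + ∑ i, D.E i (c i)) (D.p₂ a + ∑ i, D.E i (c i)) = - ∑ i, D.S i (c i) (c i) := by
  have h1 : D.B (D.p₂ a) (∑ i, D.E i (c i)) = 0 := by
    rw [map_sum]
    exact Finset.sum_eq_zero (fun i _ => D.pE a i _)
  have h2 : D.B (∑ i, D.E i (c i)) (∑ i, D.E i (c i)) = - ∑ i, D.S i (c i) (c i) := by
    have e0 : D.B (∑ i, D.E i (c i)) = ∑ i, D.B (D.E i (c i)) := map_sum _ _ _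
    rw [e0, LinearMap.sum_apply, ← Finset.sum_neg_distrib]
    refine Finset.sum_congr rfl (fun i _ => ?_)
    rw [map_sum, Finset.sum_eq_single i, D.EE]
    · intro j _ hj
      exact D.EE' _ _ _ _ (Ne.symm hj)
    · intro h
      exact absurd (Finset.mem_univ i) h
  have e1 : D.B (D.p₂ a + ∑ i, D.E i (c i)) = D.B (D.p₂ a) + D.B (∑ i, D.E i (c i)) := map_add _ _ _
  rw [e1, LinearMap.add_apply, map_add, map_add, D.pp, h1, D.symm _ (D.p₂ a), h1, h2]
  ring

include D in
theorem finite_F₁ [FiniteDimensional ℚ V₁] : FiniteDimensional ℚ F₁ := by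
  have hinj : Function.Injective D.p₁ := by
    rw [← LinearMap.ker_eq_bot, LinearMap.ker_eq_bot']
    intro b hb
    exact (D.pic b 0 0 (by simp [hb])).1
  exact FiniteDimensional.of_injective D.p₁ hinj

include D in
theorem rank_F₁ [FiniteDimensional ℚ V₁] : finrank ℚ F₁ + 1 + r ≤ finrank ℚ V₁ := by
  have := D.finite_F₁
  let g : (F₁ × ℚ × (Fin r → ℚ)) →ₗ[ℚ] V₁ :=
    { toFun := fun v => D.p₁ v.1 + v.2.1 • D.e + ∑ i, v.2.2 i • D.δ i
      map_add' := by
        intro v w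
        simp only [Prod.fst_add, Prod.snd_add, map_add, Pi.add_apply, add_smul,
          Finset.sum_add_distrib]
        abel
      map_smul' := by
        intro c v
        simp only [Prod.smul_fst, Prod.smul_snd, map_smul, Pi.smul_apply, RingHom.id_apply,
          Finset.smul_sum, smul_add, smul_smul, smul_eq_mul] }
  have hinj : Function.Injective g := by
    rw [← LinearMap.ker_eq_bot, LinearMap.ker_eq_bot']
    rintro ⟨b, s, t⟩ hb
    obtain ⟨h1, h2, h3⟩ := D.pic b s t hb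
    simp [h1, h2, h3]
  have := LinearMap.finrank_le_finrank_of_injective hinj
  rw [finrank_prod, finrank_prod, finrank_self, finrank_fin_fun] at this
  omega

/-- The bound on the negative index: if `z` is orthogonal to `L V₁` and to `M b` for all `b` with
`L b` numerically trivial, and `z² ≤ 0`, then `z` is numerically equivalent to an element of
`L V₁`. -/
theorem key [FiniteDimensional ℚ V₁] (z : V₂) (hzL : ∀ b, D.B z (D.L b) = 0)
    (hzM : ∀ b, (∀ y, D.B (D.L b) y = 0) → D.B z (D.M b) = 0) (hz : D.B z z ≤ 0) :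
    ∃ b, ∀ y, D.B z y = D.B (D.L b) y := by
  have hF := D.finite_F₁
  -- the kernel of the map to numerical classes
  set K : Submodule ℚ V₁ := LinearMap.ker (D.B ∘ₗ D.L) with hK
  have hKm : ∀ b, b ∈ K ↔ ∀ y, D.B (D.L b) y = 0 := by
    intro b
    rw [hK, LinearMap.mem_ker, LinearMap.comp_apply]
    constructor
    · intro h y; rw [h]; rfl
    · intro h; ext y; exact h y
  set N : Submodule ℚ V₁ := LinearMap.ker D.f with hN
  have hKN : K ≤ N := by
    intro b hb
    rw [hN, LinearMap.mem_ker, ← D.f_eq, D.symm]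
    exact (hKm b).1 hb _
  obtain ⟨N', hdis, hsup⟩ := IsModularLattice.exists_disjoint_and_sup_eq hKN
  have hN'N : N' ≤ N := by rw [← hsup]; exact le_sup_right
  -- dimension of the domain
  have hdim : finrank ℚ V₁ ≤ 1 + finrank ℚ N' + finrank ℚ K := by
    have h1 := Submodule.finrank_sup_add_finrank_inf_eq K N'
    rw [hdis.eq_bot, hsup, finrank_bot] at h1
    have h2 := LinearMap.finrank_range_add_finrank_ker D.f
    have h3 : finrank ℚ (LinearMap.range D.f) ≤ 1 := by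
      have := Submodule.finrank_le (LinearMap.range D.f)
      rwa [finrank_self] at this
    have h4 : finrank ℚ N = finrank ℚ (LinearMap.ker D.f) := rfl
    omega
  let Φ : (ℚ × N' × K) →ₗ[ℚ] V₂ :=
    { toFun := fun v => v.1 • z + D.L v.2.1 + D.M v.2.2
      map_add' := by
        intro v w
        simp only [Prod.fst_add, Prod.snd_add, map_add, add_smul, Submodule.coe_add]
        abel
      map_smul' := by
        intro c v
        simp only [Prod.smul_fst, Prod.smul_snd, map_smul, RingHom.id_apply, smul_add,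
          smul_smul, smul_eq_mul, Submodule.coe_smul] }
  have hsurj : Function.Surjective D.Θ := by
    intro y
    obtain ⟨a, b, c, h⟩ := D.gen y
    exact ⟨(a, b, c), h.symm⟩
  obtain ⟨Θi, hΘi⟩ := D.Θ.exists_rightInverse_of_surjective (LinearMap.range_eq_top.2 hsurj)
  have hker : LinearMap.ker (D.ψ ∘ₗ Θi ∘ₗ Φ) ≠ ⊥ := by
    apply LinearMap.ker_ne_bot_of_finrank_lt
    rw [finrank_prod, finrank_prod, finrank_prod, finrank_self, finrank_fin_fun]
    have := D.rank_F₁
    omega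
  obtain ⟨v, hv, hv0⟩ := Submodule.exists_mem_ne_zero_of_ne_bot hker
  obtain ⟨s, b, b'⟩ := v
  rw [LinearMap.mem_ker, LinearMap.comp_apply, LinearMap.comp_apply] at hv
  have hv1 : (Θi (Φ (s, b, b'))).2.1 = 0 := congrArg Prod.fst hv
  have hv2 : ∀ i, D.S i ((Θi (Φ (s, b, b'))).2.2 i) (D.η i) = 0 :=
    fun i => congrFun (congrArg Prod.snd hv) i
  have hΘv : D.Θ (Θi (Φ (s, b, b'))) = Φ (s, b, b') := by
    have := congrArg (fun g => g (Φ (s, b, b'))) hΘi
    simpa using this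
  set a := (Θi (Φ (s, b, b'))).1 with ha
  set c := (Θi (Φ (s, b, b'))).2.2 with hc
  have hu : D.p₂ a + ∑ i, D.E i (c i) = s • z + D.L b + D.M b' := by
    have h1 : D.Θ (Θi (Φ (s, b, b'))) = D.p₂ a + D.L (D.p₁ (Θi (Φ (s, b, b'))).2.1) +
      ∑ i, D.E i (c i) := rfl
    rw [hv1, map_zero, map_zero, add_zero, hΘv] at h1
    exact h1.symm
  have hb'K := (hKm b').1 b'.2
  have hfb : D.f b = 0 := hN'N b.2
  -- the square of `u`
  have hsq1 := D.sq a c
  have hsq2 : D.B (s • z + D.L b + D.M b') (s • z + D.L b + D.M b') =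
      s * s * D.B z z + D.B (D.L b) (D.L b) + D.B (D.M b') (D.M b') := by
    have e1 : D.B (D.L b) z = 0 := by rw [D.symm]; exact hzL _
    have e2 : D.B z (D.M b') = 0 := hzM _ hb'K
    have e3 : D.B (D.M b') z = 0 := by rw [D.symm]; exact e2
    have e4 : D.B (D.L b) (D.M b') = 0 := by rw [D.LM]; exact hb'K _
    have e5 : D.B (D.M b') (D.L b) = 0 := by rw [D.symm]; exact e4
    simp only [map_add, map_smul, LinearMap.add_apply, LinearMap.smul_apply, smul_eq_mul, hzL,
      e1, e2, e3, e4, e5]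
    ring
  rw [← hu, hsq1] at hsq2
  have n1 : ∀ i ∈ Finset.univ, D.S i (c i) (c i) ≤ 0 := fun i _ => D.S_nonpos i _ (hv2 i)
  have n2 : s * s * D.B z z ≤ 0 := mul_nonpos_of_nonneg_of_nonpos (mul_self_nonneg s) hz
  have n3 : D.B (D.L b) (D.L b) ≤ 0 := D.neg _ hfb
  have n4 : D.B (D.M b') (D.M b') ≤ 0 := by
    by_cases h0 : (b' : V₁) = 0
    · rw [h0]; simp
    · exact (D.exc _ h0 hb'K).le
  have n5 : ∑ i, D.S i (c i) (c i) ≤ 0 := Finset.sum_nonpos n1
  have m3 : D.B (D.L b) (D.L b) = 0 := by linarith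
  have m4 : D.B (D.M b') (D.M b') = 0 := by linarith
  have m5 : ∑ i, D.S i (c i) (c i) = 0 := by linarith
  have hb'0 : (b' : V₁) = 0 := by
    by_contra h0
    exact absurd m4 (D.exc _ h0 hb'K).ne
  have hc0 : ∀ i, c i = 0 := by
    intro i
    by_contra h0
    have := (Finset.sum_eq_zero_iff_of_nonpos n1).1 m5 i (Finset.mem_univ i)
    exact absurd this (D.S_neg i _ (hv2 i) h0).ne
  have hu' : D.p₂ a = s • z + D.L b := by
    rw [hb'0, map_zero, add_zero] at hu
    rw [← hu, Finset.sum_eq_zero (fun i _ => by rw [hc0 i, map_zero]), add_zero]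
  have hrad := D.rad hfb m3
  have hnum : ∀ y, D.B (s • z + D.L b) y = 0 := by
    rw [← hu']
    refine D.num a (fun b'' => ?_)
    rw [hu', D.symm, map_add, map_smul, LinearMap.add_apply, LinearMap.smul_apply, hzL, hrad]
    simp
  have hs : s ≠ 0 := by
    rintro rfl
    simp only [zero_smul, zero_add] at hnum
    have hbK : (b : V₁) ∈ K := (hKm b).2 hnum
    have hb0 : (b : V₁) = 0 := by
      have : (b : V₁) ∈ K ⊓ N' := ⟨hbK, b.2⟩
      rw [hdis.eq_bot] at this
      exact this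
    apply hv0
    have h1 : b = 0 := Subtype.ext hb0
    have h2 : b' = 0 := Subtype.ext hb'0
    rw [h1, h2]; rfl
  refine ⟨(-(1 / s)) • (b : V₁), fun y => ?_⟩
  have h := hnum y
  rw [map_add, map_smul, LinearMap.add_apply, LinearMap.smul_apply, smul_eq_mul] at h
  rw [map_smul, map_smul, LinearMap.smul_apply, smul_eq_mul]
  field_simp
  linarith

end Data

end Pool.Agent.Lib.MP_361a6f_ag.H21
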