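import Pool.Agent.Lib.MP_361a6f_ag.H3.Defs

/-!
# Fourfolds dominated by ruled fourfolds: the definitions used in the statement
-/

open CategoryTheory AlgebraicGeometry MonoidalCategory CartesianMonoidalCategory

universe u v w

namespace Pool.Agent.Lib.MP_361a6f_ag.H21

open Pool.Agent.Lib.MP_361a6f_ag.H3

variable {k : Type u} [Field k] {K : Type v} [Field K] (W : CohomologyData.{u, v, w} k K)

/-- `C^0(X) = ℚ` -/
def IsConn (X : Sch k) : Prop := ∀ x, W.IsAlg X 0 x → ∃ c : ℚ, x = W.scal (c : K) 1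

/-- The Hodge index theorem for `(Y, η)`, `n = dim Y ≥ 2`: `η` lies in `C^1(Y)`, `Tr(η^n)` is a
positive rational number and `Tr(η^(n-2) b b)` is a negative rational number for all nonzero `b` in
`C^1(Y)` with `Tr(η^(n-1) b) = 0`. -/
def HodgeIndex (Y : Sch k) (n : ℕ) (η : W.coh Y) : Prop :=
  W.IsAlg Y 1 η ∧ RatPos (W.Tr (η ^ n)) ∧
    ∀ b, W.IsAlg Y 1 b → W.Tr (W.cup (η ^ (n - 1)) b) = 0 → b ≠ 0 →
      RatPos (- W.Tr (W.cup (η ^ (n - 2)) (W.cup b b)))

/-- The weak form of the Hodge index theorem for `(P, ζ)`, `dim P = 4`: `Tr(ζ^2 b b)` is not a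
positive rational number for all `b` in `C^1(P)` with `Tr(ζ^3 b) = 0`. -/
def WeakIndex (P : Sch k) (ζ : W.coh P) : Prop :=
  ∀ b, W.IsAlg P 1 b → W.Tr (W.cup (ζ ^ 3) b) = 0 → ¬ RatPos (W.Tr (W.cup (ζ ^ 2) (W.cup b b)))

/-- `q : P → X` has positive rational degree: `Tr(q^* y) = d Tr(y)` for all `y`. -/
def HasDegree {P X : Sch k} (q : Sch.Mor P X) : Prop :=
  ∃ d : K, RatPos d ∧ ∀ y : W.coh X, W.Tr (W.pb q y) = d * W.Tr y

/-- `q_*(A b) = 0` for all `b` in `C^1(P)` for which `ζ b` is numerically trivial. -/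
def ContractedToPoints {P X : Sch k} (q : Sch.Mor P X) (ζ A : W.coh P) : Prop :=
  ∀ b, W.IsAlg P 1 b → (∀ y, W.IsAlg P 2 y → W.Tr (W.cup (W.cup ζ b) y) = 0) →
    W.pf q (W.cup A b) = 0

/-- The map `ε(c) = pr₂_*(Γ · pr₁^* c)` given by a correspondence `Γ` on `S × P`. -/
noncomputable def corr {S P : Sch k} (Γ : W.coh (S.prod P)) (c : W.coh S) : W.coh P :=
  W.pf (S.pr₂ P) (W.cup Γ (W.pb (S.pr₁ P) c))

/-- `P` has the shape of an iterated blow-up of a `ℙ¹`-bundle over the threefold `F` along smooth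
surfaces `S_i`, seen in codimension `≤ 2`. Here `p : P → F` is the projection, the correspondences
`Γ_i` on `S_i × P` are the classes of the exceptional divisors, so that `ε_i(1)` is the class of the
exceptional divisor and `ε_i(c)` is the class of its part over `c`. -/
structure RuledShape {P F : Sch k} (p : Sch.Mor P F) (ζ : W.coh P) {r : ℕ} (S : Fin r → Sch k)
    (Γ : ∀ i, W.coh ((S i).prod P)) : Prop where
  /-- the fibres of `p` have nonzero degree with respect to `ζ` -/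
  fibre : ∃ m : K, m ≠ 0 ∧ W.pf p ζ = W.scal m 1
  /-- `Γ_i` is algebraic of codimension `3` on `S_i × P` -/
  alg : ∀ i, W.IsAlg ((S i).prod P) 3 (Γ i)
  /-- the projection formula -/
  orth : ∀ i a c, W.IsAlg F 2 a → W.IsAlg (S i) 1 c →
    W.Tr (W.cup (W.pb p a) (corr W (Γ i) c)) = 0
  /-- the self-intersection formula -/
  self : ∀ i c c', W.IsAlg (S i) 1 c → W.IsAlg (S i) 1 c' →
    W.Tr (W.cup (corr W (Γ i) c) (corr W (Γ i) c')) = - W.Tr (W.cup c c')
  /-- different centres are orthogonal -/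
  orth' : ∀ i j c c', i ≠ j → W.IsAlg (S i) 1 c → W.IsAlg (S j) 1 c' →
    W.Tr (W.cup (corr W (Γ i) c) (corr W (Γ j) c')) = 0
  /-- generators of `C^2(P)` -/
  gen : ∀ z, W.IsAlg P 2 z → ∃ (a b : W.coh F) (c : ∀ i, W.coh (S i)), W.IsAlg F 2 a ∧
    W.IsAlg F 1 b ∧ (∀ i, W.IsAlg (S i) 1 (c i)) ∧
    z = W.pb p a + W.cup ζ (W.pb p b) + ∑ i, corr W (Γ i) (c i)
  /-- independence in `C^1(P)` -/
  indep : ∀ (b : W.coh F) (s : ℚ) (t : Fin r → ℚ), W.IsAlg F 1 b →
    W.pb p b + W.scal (s : K) ζ + ∑ i, W.scal (t i : K) (corr W (Γ i) 1) = 0 →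
    b = 0 ∧ s = 0 ∧ t = 0

end Pool.Agent.Lib.MP_361a6f_ag.H21
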