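import Pool.Agent.Lib.MP_361a6f_ag.H3.Basic
import Pool.Agent.Lib.MP_361a6f_ag.H21.Core
import Pool.Agent.Lib.MP_361a6f_ag.H21.Defs

/-!
# Rational structures on the spaces of algebraic classes
-/

open CategoryTheory AlgebraicGeometry MonoidalCategory CartesianMonoidalCategory

universe u v w

namespace Pool.Agent.Lib.MP_361a6f_ag.H21

open Pool.Agent.Lib.MP_361a6f_ag.H3

variable {k : Type u} [Field k] {K : Type v} [Field K] [CharZero K]
  {W : CohomologyData.{u, v, w} k K} {𝒱 : VarietyClass k}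

/-- the space `C^j(X)` as a vector space over `ℚ` -/
noncomputable instance algModule (X : Sch k) (j : ℕ) : Module ℚ (W.alg X j) where
  smul q x := ⟨(q : K) • x.1, CohomologyData.alg_smul q x.2⟩
  one_smul x := Subtype.ext (by
    change ((1 : ℚ) : K) • x.1 = x.1
    rw [Rat.cast_one, one_smul])
  mul_smul a b x := Subtype.ext (by
    change ((a * b : ℚ) : K) • x.1 = (a : K) • ((b : K) • x.1)
    rw [Rat.cast_mul, mul_smul])
  smul_zero a := Subtype.ext (by
    change (a : K) • (0 : W.coh X) = 0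
    rw [smul_zero])
  smul_add a x y := Subtype.ext (by
    change (a : K) • (x.1 + y.1) = (a : K) • x.1 + (a : K) • y.1
    rw [smul_add])
  add_smul a b x := Subtype.ext (by
    change ((a + b : ℚ) : K) • x.1 = (a : K) • x.1 + (b : K) • x.1
    rw [Rat.cast_add, add_smul])
  zero_smul x := Subtype.ext (by
    change ((0 : ℚ) : K) • x.1 = 0
    rw [Rat.cast_zero, zero_smul])

lemma coe_smul {X : Sch k} {j : ℕ} (q : ℚ) (x : W.alg X j) :
    ((q • x : W.alg X j) : W.coh X) = (q : K) • (x : W.coh X) := rfl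

open Classical in
/-- the trace as a rational number -/
noncomputable def tq (W : CohomologyData.{u, v, w} k K) (X : Sch k) (x : W.coh X) : ℚ :=
  if h : ∃ q : ℚ, W.tr X x = q then h.choose else 0

section

variable (hW : IsWeilCohomology W 𝒱)
include hW

lemma tq_spec {X : Sch k} {d : ℕ} (hX : 𝒱.mem X d) {x : W.coh X} (hx : x ∈ W.alg X d) :
    ((tq W X x : ℚ) : K) = W.tr X x := by
  have h := hW.tr_alg hX hx
  unfold tq
  rw [dif_pos h]
  exact h.choose_spec.symm

lemma tq_eq_zero {X : Sch k} {d : ℕ} (hX : 𝒱.mem X d) {x : W.coh X} (hx : x ∈ W.alg X d) :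
    tq W X x = 0 ↔ W.tr X x = 0 := by
  rw [← tq_spec hW hX hx, Rat.cast_eq_zero]

lemma ratPos_iff {X : Sch k} {d : ℕ} (hX : 𝒱.mem X d) {x : W.coh X} (hx : x ∈ W.alg X d) :
    RatPos (W.tr X x) ↔ 0 < tq W X x := by
  rw [← tq_spec hW hX hx]
  constructor
  · rintro ⟨r, hr, h⟩
    rwa [Rat.cast_injective h]
  · intro h
    exact ⟨_, h, rfl⟩

lemma ratPos_neg_iff {X : Sch k} {d : ℕ} (hX : 𝒱.mem X d) {x : W.coh X} (hx : x ∈ W.alg X d) :
    RatPos (- W.tr X x) ↔ tq W X x < 0 := by
  rw [← tq_spec hW hX hx]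
  constructor
  · rintro ⟨r, hr, h⟩
    have h2 : ((tq W X x : ℚ) : K) = ((-r : ℚ) : K) := by
      rw [Rat.cast_neg, ← h, neg_neg]
    rw [Rat.cast_injective h2]
    linarith
  · intro h
    exact ⟨-tq W X x, by linarith, by rw [Rat.cast_neg]⟩

/-- the intersection form `C^i(X) × C^j(X) → ℚ`, `i + j = dim X` -/
noncomputable def form {X : Sch k} {d : ℕ} (hX : 𝒱.mem X d) (i j : ℕ) (hij : i + j = d) :
    W.alg X i →ₗ[ℚ] W.alg X j →ₗ[ℚ] ℚ :=
  LinearMap.mk₂ ℚ (fun x y => tq W X (x.1 * y.1))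
    (by
      intro x x' y
      have h1 : x.1 * y.1 ∈ W.alg X d := hij ▸ hW.mul_alg hX x.2 y.2
      have h2 : x'.1 * y.1 ∈ W.alg X d := hij ▸ hW.mul_alg hX x'.2 y.2
      apply Rat.cast_injective (α := K)
      rw [Rat.cast_add, tq_spec hW hX h1, tq_spec hW hX h2, ← map_add, ← add_mul]
      refine tq_spec hW hX ?_
      rw [AddSubgroup.coe_add, add_mul]
      exact add_mem h1 h2)
    (by
      intro c x y
      have h1 : x.1 * y.1 ∈ W.alg X d := hij ▸ hW.mul_alg hX x.2 y.2
      apply Rat.cast_injective (α := K)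
      have h2 : (c : K) * W.tr X (x.1 * y.1) = W.tr X ((c • x).1 * y.1) := by
        rw [coe_smul, smul_mul_assoc, map_smul, smul_eq_mul]
      rw [smul_eq_mul, Rat.cast_mul, tq_spec hW hX h1, h2]
      refine tq_spec hW hX ?_
      rw [coe_smul, smul_mul_assoc]
      exact CohomologyData.alg_smul c h1)
    (by
      intro x y y'
      have h1 : x.1 * y.1 ∈ W.alg X d := hij ▸ hW.mul_alg hX x.2 y.2
      have h2 : x.1 * y'.1 ∈ W.alg X d := hij ▸ hW.mul_alg hX x.2 y'.2
      apply Rat.cast_injective (α := K)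
      rw [Rat.cast_add, tq_spec hW hX h1, tq_spec hW hX h2, ← map_add, ← mul_add]
      refine tq_spec hW hX ?_
      rw [AddSubgroup.coe_add, mul_add]
      exact add_mem h1 h2)
    (by
      intro c x y
      have h1 : x.1 * y.1 ∈ W.alg X d := hij ▸ hW.mul_alg hX x.2 y.2
      apply Rat.cast_injective (α := K)
      have h2 : (c : K) * W.tr X (x.1 * y.1) = W.tr X (x.1 * (c • y).1) := by
        rw [coe_smul, mul_smul_comm, map_smul, smul_eq_mul]
      rw [smul_eq_mul, Rat.cast_mul, tq_spec hW hX h1, h2]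
      refine tq_spec hW hX ?_
      rw [coe_smul, mul_smul_comm]
      exact CohomologyData.alg_smul c h1)

lemma form_apply {X : Sch k} {d : ℕ} (hX : 𝒱.mem X d) (i j : ℕ) (hij : i + j = d)
    (x : W.alg X i) (y : W.alg X j) : form hW hX i j hij x y = tq W X (x.1 * y.1) := rfl

lemma form_cast {X : Sch k} {d : ℕ} (hX : 𝒱.mem X d) (i j : ℕ) (hij : i + j = d)
    (x : W.alg X i) (y : W.alg X j) :
    ((form hW hX i j hij x y : ℚ) : K) = W.tr X (x.1 * y.1) := by
  rw [form_apply]
  exact tq_spec hW hX (hij ▸ hW.mul_alg hX x.2 y.2)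

lemma form_eq_zero {X : Sch k} {d : ℕ} (hX : 𝒱.mem X d) (i j : ℕ) (hij : i + j = d)
    (x : W.alg X i) (y : W.alg X j) :
    form hW hX i j hij x y = 0 ↔ W.tr X (x.1 * y.1) = 0 := by
  rw [← form_cast hW hX i j hij, Rat.cast_eq_zero]

/-- if homological and numerical equivalence agree on `C^i(X)`, then `C^i(X)` is a
finite-dimensional vector space over `ℚ` -/
lemma finite_alg {X : Sch k} {d : ℕ} (hX : 𝒱.mem X d) (i j : ℕ) (hij : i + j = d)
    (h : ∀ x ∈ W.alg X i, (∀ y ∈ W.alg X j, W.tr X (x * y) = 0) → x = 0) :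
    FiniteDimensional ℚ (W.alg X i) := by
  have hfin := hW.finite hX
  obtain ⟨b, hb, hspan, hli⟩ := exists_linearIndependent K (W.alg X j : Set (W.coh X))
  have hbf : Finite b := hli.setFinite
  have hbf' : Fintype b := Fintype.ofFinite b
  let g : W.alg X i →ₗ[ℚ] (b → ℚ) := LinearMap.pi
    (fun y => (form hW hX i j hij).flip ⟨y.1, hb y.2⟩)
  refine FiniteDimensional.of_injective g ?_
  rw [← LinearMap.ker_eq_bot, LinearMap.ker_eq_bot']
  intro x hx
  apply Subtype.ext
  refine h x.1 x.2 (fun y hy => ?_)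
  have hy' : y ∈ Submodule.span K b := by
    rw [hspan]; exact Submodule.subset_span hy
  clear hy
  induction hy' using Submodule.span_induction with
  | mem y hyb =>
    have h1 := congrFun hx ⟨y, hyb⟩
    exact (form_eq_zero hW hX i j hij x ⟨y, hb hyb⟩).1 h1
  | zero => rw [mul_zero, map_zero]
  | add y y' _ _ h1 h2 => rw [mul_add, map_add, h1, h2, add_zero]
  | smul c y _ h1 => rw [mul_smul_comm, map_smul, h1, smul_zero]

end

end Pool.Agent.Lib.MP_361a6f_ag.H21
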